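import Mathlib

/-!
Diagonal Hermitian forms over a domain with involution: anisotropic and rigid forms.
-/

open Matrix

namespace Pool.Agent.Helper12.Herm

variable {A : Type*} [CommRing A] {ι : Type*} [Fintype ι] [DecidableEq ι]

/-- `b` is a scalar matrix. -/
def Scal (b : Matrix ι ι A) : Prop := ∃ e : A, b = Matrix.scalar ι e

/-- `b` is self-adjoint for the diagonal form `d`. -/
def SA (s : A →+* A) (d : ι → A) (b : Matrix ι ι A) : Prop :=
  ∀ i j, d i * b i j = d j * s (b j i)

/-- The diagonal form `d` is anisotropic. -/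
def Aniso (s : A →+* A) (d : ι → A) : Prop :=
  ∀ x : ι → A, ∑ i, d i * x i * s (x i) = 0 → x = 0

/-- Every self-adjoint matrix with a scalar `ν`-th power is scalar. -/
def Rigid (s : A →+* A) (ν : ℕ) (d : ι → A) : Prop :=
  ∀ b : Matrix ι ι A, SA s d b → Scal (b ^ ν) → Scal b

/-- Fixed elements are determined by their `ν`-th powers. -/
def Roots (s : A →+* A) (ν : ℕ) : Prop :=
  ∀ x y : A, s x = x → s y = y → x ^ ν = y ^ ν → x = y

theorem sa_iff (s : A →+* A) (d : ι → A) (b : Matrix ι ι A) :
    SA s d b ↔ Matrix.diagonal d * b = (b.map s)ᵀ * Matrix.diagonal d := by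
  constructor
  · intro h
    ext i j
    rw [Matrix.diagonal_mul, Matrix.mul_diagonal, Matrix.transpose_apply, Matrix.map_apply, h i j,
      mul_comm]
  · intro h i j
    have := congrFun (congrFun h i) j
    rw [Matrix.diagonal_mul, Matrix.mul_diagonal, Matrix.transpose_apply, Matrix.map_apply] at this
    rw [this, mul_comm]

theorem SA.pow {s : A →+* A} {d : ι → A} {b : Matrix ι ι A} (h : SA s d b) (k : ℕ) :
    SA s d (b ^ k) := by
  rw [sa_iff] at h ⊢
  induction k with
  | zero =>
    rw [pow_zero, mul_one, Matrix.map_one s (map_zero s) (map_one s), Matrix.transpose_one, one_mul]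
  | succ k ih =>
    have h1 : (b ^ (k + 1)).map s = (b.map s) * ((b ^ k).map s) := by
      rw [pow_succ', Matrix.map_mul]
    rw [h1, Matrix.transpose_mul, pow_succ, ← Matrix.mul_assoc, ih, Matrix.mul_assoc, h,
      ← Matrix.mul_assoc]

variable [IsDomain A]

theorem Aniso.ne_zero {s : A →+* A} {d : ι → A} (h : Aniso s d) (i : ι) : d i ≠ 0 := by
  intro h0
  have h1 := h (Pi.single i 1) (by
    apply Finset.sum_eq_zero
    intro j _
    by_cases hj : j = i
    · subst hj; rw [h0]; ring
    · rw [Pi.single_eq_of_ne hj]; ring)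
  have h2 := congrFun h1 i
  rw [Pi.single_eq_same] at h2
  exact one_ne_zero h2

theorem zero_of_sq {s : A →+* A} {d : ι → A} (h : Aniso s d) {b : Matrix ι ι A} (hb : SA s d b)
    (h2 : b ^ 2 = 0) : b = 0 := by
  ext i j
  have h3 := h (fun i => b i j) (by
    have h4 : ∀ i, d i * b i j * s (b i j) = d j * (b j i * b i j) := by
      intro i
      have := hb j i
      linear_combination (-b i j) * this
    simp_rw [h4]
    rw [← Finset.mul_sum]
    have h5 : ∑ i, b j i * b i j = (b ^ 2) j j := by
      rw [pow_two, Matrix.mul_apply]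
    rw [h5, h2]
    simp)
  exact congrFun h3 i

theorem zero_of_nilpotent {s : A →+* A} {d : ι → A} (h : Aniso s d) {b : Matrix ι ι A}
    (hb : SA s d b) {k : ℕ} (hk : b ^ k = 0) : b = 0 := by
  have key : ∀ m, ∀ b : Matrix ι ι A, SA s d b → b ^ (2 ^ m) = 0 → b = 0 := by
    intro m
    induction m with
    | zero => intro b _ h1; simpa using h1
    | succ m ih =>
      intro b hb h1
      apply ih b hb
      apply zero_of_sq h (hb.pow _)
      rw [← pow_mul, ← pow_succ]
      exact h1
  apply key k b hb
  obtain ⟨r, hr⟩ := Nat.exists_eq_add_of_le (Nat.lt_two_pow_self (n := k)).le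
  rw [hr, pow_add, hk, zero_mul]

theorem Roots.zero {s : A →+* A} {ν : ℕ} (h : Roots s ν) : (0 : A) ^ ν = 0 := by
  rcases Nat.eq_zero_or_pos ν with rfl | hν
  · have := h 0 1 (map_zero s) (map_one s) (by simp)
    exact absurd this zero_ne_one
  · exact zero_pow hν.ne'

theorem Roots.pos {s : A →+* A} {ν : ℕ} (h : Roots s ν) : 0 < ν := by
  rcases Nat.eq_zero_or_pos ν with rfl | hν
  · have := h 0 1 (map_zero s) (map_one s) (by simp)
    exact absurd this zero_ne_one
  · exact hν

end Pool.Agent.Helper12.Herm
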