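import Mathlib
import Pool.Agent.Helper12.Herm.Basic

/-!
From a rigid form `d` over `A` to the rigid form `(d, X)` over `A[X]`.
-/

set_option linter.unusedSectionVars false

open Matrix Polynomial

namespace Pool.Agent.Helper12.Herm

variable {A : Type*} [CommRing A] [IsDomain A] {ι : Type*} [Fintype ι] [DecidableEq ι]

/-- The involution of `A[X]` extending `s` and fixing `X`. -/
noncomputable def ext (s : A →+* A) : A[X] →+* A[X] := Polynomial.mapRingHom s

theorem ext_C (s : A →+* A) (a : A) : ext s (C a) = C (s a) := by simp [ext]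

theorem ext_X (s : A →+* A) : ext s X = X := by simp [ext]

theorem coeff_ext (s : A →+* A) (f : A[X]) (k : ℕ) : (ext s f).coeff k = s (f.coeff k) := by
  simp [ext]

theorem ext_ext {s : A →+* A} (hs : ∀ a, s (s a) = a) (f : A[X]) : ext s (ext s f) = f := by
  ext k
  rw [coeff_ext, coeff_ext, hs]

/-- The extended form. -/
noncomputable def dext (d : ι → A) : ι ⊕ Unit → A[X] := Sum.elim (fun i => C (d i)) (fun _ => X)

theorem inj_of_invol {s : A →+* A} (hs : ∀ a, s (s a) = a) {a : A} (h : s a = 0) : a = 0 := by
  rw [← hs a, h, map_zero]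

theorem dvd_of_coeff_zero {f : A[X]} (h : f.coeff 0 = 0) : ∃ g, f = X * g :=
  Polynomial.X_dvd_iff.mpr h

theorem coeff_zero_mul (f g : A[X]) : (f * g).coeff 0 = f.coeff 0 * g.coeff 0 :=
  Polynomial.mul_coeff_zero f g

theorem eq_zero_of_pow_dvd {f : A[X]} (h : ∀ N : ℕ, (X : A[X]) ^ N ∣ f) : f = 0 := by
  by_contra hf
  obtain ⟨g, hg⟩ := h (f.natDegree + 1)
  have hg0 : g ≠ 0 := by
    rintro rfl
    exact hf (by rw [hg, mul_zero])
  have := congrArg Polynomial.natDegree hg
  rw [Polynomial.natDegree_mul (pow_ne_zero _ X_ne_zero) hg0, Polynomial.natDegree_X_pow] at this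
  omega

theorem aniso_ext {s : A →+* A} (hs : ∀ a, s (s a) = a) {d : ι → A} (h : Aniso s d) :
    Aniso (ext s) (dext d) := by
  have step : ∀ x : ι ⊕ Unit → A[X], ∑ i, dext d i * x i * ext s (x i) = 0 →
      ∃ y : ι ⊕ Unit → A[X], (∀ i, x i = X * y i) ∧ ∑ i, dext d i * y i * ext s (y i) = 0 := by
    intro x hx
    rw [Fintype.sum_sum_type] at hx
    simp only [dext, Sum.elim_inl, Sum.elim_inr, Finset.univ_unique, Finset.sum_singleton] at hx
    have h0 : ∀ i, (x (Sum.inl i)).coeff 0 = 0 := by
      have h1 := congrArg (fun f => Polynomial.coeff f 0) hx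
      simp only [Polynomial.coeff_add, Polynomial.finsetSum_coeff, coeff_zero_mul, coeff_ext,
        Polynomial.coeff_C_zero, Polynomial.coeff_X_zero, zero_mul, add_zero,
        Polynomial.coeff_zero] at h1
      exact fun i => congrFun (h _ h1) i
    choose y hy using fun i => dvd_of_coeff_zero (h0 i)
    have h2 : (X : A[X]) * (X * ∑ i, C (d i) * y i * ext s (y i)
        + x (Sum.inr PUnit.unit) * ext s (x (Sum.inr PUnit.unit))) = 0 := by
      rw [← hx, mul_add, Finset.mul_sum, Finset.mul_sum]
      congr 1
      · apply Finset.sum_congr rfl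
        intro i _
        rw [hy i, map_mul, ext_X]
        ring
      · ring
    have h3 := (mul_eq_zero.mp h2).resolve_left X_ne_zero
    have h4 : (x (Sum.inr PUnit.unit)).coeff 0 = 0 := by
      have h5 := congrArg (fun f => Polynomial.coeff f 0) h3
      simp only [Polynomial.coeff_add, coeff_zero_mul, coeff_ext, Polynomial.coeff_X_zero, zero_mul,
        zero_add, Polynomial.coeff_zero] at h5
      rcases mul_eq_zero.mp h5 with h6 | h6
      · exact h6
      · exact inj_of_invol hs h6
    obtain ⟨z, hz⟩ := dvd_of_coeff_zero h4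
    refine ⟨Sum.elim y (fun _ => z), ?_, ?_⟩
    · rintro (i | ⟨⟩)
      · exact hy i
      · exact hz
    · rw [Fintype.sum_sum_type]
      simp only [dext, Sum.elim_inl, Sum.elim_inr, Finset.univ_unique, Finset.sum_singleton]
      rw [hz, map_mul, ext_X] at h3
      have h5 : (X : A[X]) * (∑ i, C (d i) * y i * ext s (y i) + X * z * ext s z) = 0 := by
        rw [← h3]; ring
      exact (mul_eq_zero.mp h5).resolve_left X_ne_zero
  intro x hx
  have key : ∀ N : ℕ, ∀ x : ι ⊕ Unit → A[X], ∑ i, dext d i * x i * ext s (x i) = 0 →
      ∀ i, (X : A[X]) ^ N ∣ x i := by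
    intro N
    induction N with
    | zero => intro x _ i; simp
    | succ N ih =>
      intro x hx i
      obtain ⟨y, hy, hy2⟩ := step x hx
      obtain ⟨z, hz⟩ := ih y hy2 i
      exact ⟨z, by rw [hy i, hz]; ring⟩
  funext i
  exact eq_zero_of_pow_dvd fun N => key N x hx i

theorem roots_ext {s : A →+* A} (hs : ∀ a, s (s a) = a) {ν : ℕ} (hν : (ν : A) ≠ 0)
    (h : Roots s ν) : Roots (ext s) ν := by
  have hpos : ν ≠ 0 := h.pos.ne'
  have key : ∀ m : ℕ, ∀ x y : A[X], x.natDegree ≤ m → ext s x = x → ext s y = y →
      x ^ ν = y ^ ν → x = y := by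
    intro m
    induction m with
    | zero =>
      intro x y hm hx hy hxy
      by_cases h0 : x = 0
      · rw [h0, zero_pow hpos] at hxy
        rw [h0, (pow_eq_zero_iff hpos).mp hxy.symm]
      obtain ⟨a, ha⟩ : ∃ a, x = C a := ⟨x.coeff 0, Polynomial.eq_C_of_natDegree_le_zero hm⟩
      have hy0 : y.natDegree = 0 := by
        have h1 := congrArg Polynomial.natDegree hxy
        rw [Polynomial.natDegree_pow, Polynomial.natDegree_pow, ha, Polynomial.natDegree_C,
          mul_zero] at h1
        rcases Nat.mul_eq_zero.mp h1.symm with h2 | h2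
        · exact absurd h2 hpos
        · exact h2
      obtain ⟨b, hb⟩ : ∃ b, y = C b := ⟨y.coeff 0, Polynomial.eq_C_of_natDegree_eq_zero hy0⟩
      subst ha
      subst hb
      congr 1
      apply h
      · rw [ext_C] at hx; exact Polynomial.C_injective hx
      · rw [ext_C] at hy; exact Polynomial.C_injective hy
      · rw [← map_pow, ← map_pow] at hxy; exact Polynomial.C_injective hxy
    | succ m ih =>
      intro x y hm hx hy hxy
      by_cases h0 : x.coeff 0 = 0
      · obtain ⟨x', rfl⟩ := dvd_of_coeff_zero h0
        have hy0 : y.coeff 0 = 0 := by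
          have h1 := congrArg (fun f => Polynomial.coeff f 0) hxy
          simp only [← Polynomial.constantCoeff_apply, map_pow] at h1
          simp only [Polynomial.constantCoeff_apply] at h1
          rw [h0, zero_pow hpos] at h1
          exact (pow_eq_zero_iff hpos).mp h1.symm
        obtain ⟨y', rfl⟩ := dvd_of_coeff_zero hy0
        by_cases hx' : x' = 0
        · rw [hx', mul_zero, zero_pow hpos] at hxy
          rw [(pow_eq_zero_iff hpos).mp hxy.symm, hx', mul_zero]
        congr 1
        apply ih
        · rw [Polynomial.natDegree_X_mul hx'] at hm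
          omega
        · rw [map_mul, ext_X] at hx
          exact mul_left_cancel₀ X_ne_zero hx
        · rw [map_mul, ext_X] at hy
          exact mul_left_cancel₀ X_ne_zero hy
        · rw [mul_pow, mul_pow] at hxy
          exact mul_left_cancel₀ (pow_ne_zero _ X_ne_zero) hxy
      · have h1 : x.coeff 0 = y.coeff 0 := by
          apply h
          · rw [← coeff_ext, hx]
          · rw [← coeff_ext, hy]
          · have h1 := congrArg (fun f => Polynomial.coeff f 0) hxy
            simp only [← Polynomial.constantCoeff_apply, map_pow] at h1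
            simpa only [Polynomial.constantCoeff_apply] using h1
        have h2 := (Commute.all x y).mul_geom_sum₂ ν
        rw [hxy, sub_self] at h2
        rcases mul_eq_zero.mp h2 with h3 | h3
        · exact sub_eq_zero.mp h3
        · exfalso
          have h4 := congrArg (fun f => Polynomial.constantCoeff f) h3
          simp only [map_sum, map_mul, map_pow, Polynomial.constantCoeff_apply,
            Polynomial.coeff_zero] at h4
          rw [← h1] at h4
          have h5 : ∀ i ∈ Finset.range ν, (x.coeff 0) ^ i * (x.coeff 0) ^ (ν - 1 - i)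
              = (x.coeff 0) ^ (ν - 1) := by
            intro i hi
            rw [← pow_add]
            congr 1
            have := Finset.mem_range.mp hi
            omega
          rw [Finset.sum_congr rfl h5, Finset.sum_const, Finset.card_range, nsmul_eq_mul] at h4
          rcases mul_eq_zero.mp h4 with h6 | h6
          · exact hν h6
          · exact pow_ne_zero _ h0 h6
  intro x y hx hy hxy
  exact key _ x y le_rfl hx hy hxy

end Pool.Agent.Helper12.Herm
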