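import Mathlib
import Pool.Agent.Helper12.Herm.Step

/-!
From a rigid form `d` over `A` to the rigid form `(d, X)` over `A[X]`: the rigidity.
-/

set_option linter.unusedSectionVars false

open Matrix Polynomial

namespace Pool.Agent.Helper12.Herm

variable {A : Type*} [CommRing A] [IsDomain A] {ι : Type*} [Fintype ι] [DecidableEq ι]

theorem blocks_pow {R : Type*} [CommRing R] (a : Matrix ι ι R) (r : Matrix Unit ι R)
    (e : Matrix Unit Unit R) (k : ℕ) :
    ∃ r' : Matrix Unit ι R, (fromBlocks a 0 r e) ^ k = fromBlocks (a ^ k) 0 r' (e ^ k) := by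
  induction k with
  | zero => exact ⟨0, by simp [Matrix.fromBlocks_one]⟩
  | succ k ih =>
    obtain ⟨r', hr'⟩ := ih
    refine ⟨r' * a + e ^ k * r, ?_⟩
    rw [pow_succ, hr', Matrix.fromBlocks_multiply]
    simp [pow_succ]

theorem blocks_pow_scalar {R : Type*} [CommRing R] (β : R) (r : Matrix Unit ι R) (k : ℕ) :
    (fromBlocks (Matrix.scalar ι β) 0 r (Matrix.scalar Unit β)) ^ k
      = fromBlocks (Matrix.scalar ι (β ^ k)) 0 ((k * β ^ (k - 1)) • r) (Matrix.scalar Unit (β ^ k)) := by
  induction k with
  | zero =>
    simp only [pow_zero, map_one, Nat.cast_zero, zero_mul, zero_smul, Matrix.fromBlocks_one]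
  | succ k ih =>
    rw [pow_succ, ih, Matrix.fromBlocks_multiply]
    congr 1
    · rw [Matrix.zero_mul, add_zero, ← map_mul, pow_succ]
    · simp
    · rcases Nat.eq_zero_or_pos k with rfl | hk
      · simp
      · ext i j
        simp only [Matrix.add_apply, Matrix.scalar_apply, Matrix.mul_diagonal,
          Matrix.diagonal_mul, Matrix.smul_apply, smul_eq_mul, Nat.add_sub_cancel]
        have h1 : β ^ k = β ^ (k - 1) * β := by
          rw [← pow_succ]; congr 1; omega
        push_cast
        rw [h1]
        ring
    · rw [Matrix.mul_zero, zero_add, ← map_mul, pow_succ]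

theorem scalar_eq_blocks {R : Type*} [CommRing R] (c : R) :
    Matrix.scalar (ι ⊕ Unit) c = fromBlocks (Matrix.scalar ι c) 0 0 (Matrix.scalar Unit c) := by
  ext i j
  rcases i with i | i <;> rcases j with j | j <;> simp [Matrix.diagonal_apply]

/-- The constant coefficient homomorphism. -/
noncomputable abbrev cc : A[X] →+* A := Polynomial.constantCoeff

theorem rigid_unit {s : A →+* A} (hs : ∀ a, s (s a) = a) {ν : ℕ} (hν : (ν : A) ≠ 0)
    (hodd : Odd ν) (hR : Roots s ν) {d : ι → A} (hfix : ∀ i, s (d i) = d i) (ha : Aniso s d)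
    (hr : Rigid s ν d) {B : Matrix (ι ⊕ Unit) (ι ⊕ Unit) A[X]} (hB : SA (ext s) (dext d) B)
    {c : A[X]} (hc : B ^ ν = Matrix.scalar _ c) (hne : ∃ i j, (B i j).coeff 0 ≠ 0) : Scal B := by
  have hpos : ν ≠ 0 := hR.pos.ne'
  have hd := ha.ne_zero
  let u : ι ⊕ Unit := Sum.inr PUnit.unit
  -- the entries in the last column
  have h2 : ∀ i : ι, ∃ R : A[X], B (Sum.inl i) u = X * R ∧ C (d i) * R = ext s (B u (Sum.inl i)) := by
    intro i
    have h3 := hB (Sum.inl i) u
    simp only [dext, Sum.elim_inl, u, Sum.elim_inr] at h3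
    have h4 : (B (Sum.inl i) u).coeff 0 = 0 := by
      have h5 := congrArg (fun f => Polynomial.coeff f 0) h3
      simp only [coeff_zero_mul, Polynomial.coeff_C_zero, Polynomial.coeff_X_zero, zero_mul] at h5
      exact (mul_eq_zero.mp h5).resolve_left (hd i)
    obtain ⟨R, hR⟩ := dvd_of_coeff_zero h4
    refine ⟨R, hR, ?_⟩
    have h6 : (X : A[X]) * (C (d i) * R) = X * ext s (B u (Sum.inl i)) := by
      rw [← h3]
      change _ = C (d i) * B (Sum.inl i) u
      rw [hR]; ring
    exact mul_left_cancel₀ X_ne_zero h6
  choose R hR1 hR2 using h2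
  have h3 : ext s (B u u) = B u u := by
    have h4 := hB u u
    simp only [dext, Sum.elim_inr, u] at h4
    exact (mul_left_cancel₀ X_ne_zero h4).symm
  -- reduction
  let b0 : Matrix ι ι A := Matrix.of fun i j => cc (B (Sum.inl i) (Sum.inl j))
  let r0 : Matrix Unit ι A := Matrix.of fun _ j => cc (B u (Sum.inl j))
  let β1 : A := cc (B u u)
  have hB0 : (cc (A := A)).mapMatrix B = fromBlocks b0 0 r0 (Matrix.scalar Unit β1) := by
    ext i j
    rcases i with i | i <;> rcases j with j | j
    · simp [b0]
    · have h5 := hR1 i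
      simp only [u] at h5
      have : j = PUnit.unit := rfl
      subst this
      simp [h5, Polynomial.constantCoeff_apply]
    · have : i = PUnit.unit := rfl
      subst this
      simp [r0, u]
    · have : i = PUnit.unit := rfl
      subst this
      have : j = PUnit.unit := rfl
      subst this
      simp [β1, u]
  have hb0 : SA s d b0 := by
    intro i j
    have h5 := congrArg (fun f => Polynomial.coeff f 0) (hB (Sum.inl i) (Sum.inl j))
    simp only [dext, Sum.elim_inl, coeff_zero_mul, Polynomial.coeff_C_zero, coeff_ext] at h5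
    simpa [b0, Polynomial.constantCoeff_apply] using h5
  have hβ1 : s β1 = β1 := by
    have h5 := congrArg (fun f => Polynomial.coeff f 0) h3
    simp only [coeff_ext] at h5
    simpa [β1, Polynomial.constantCoeff_apply] using h5
  have hpow : (fromBlocks b0 0 r0 (Matrix.scalar Unit β1)) ^ ν = Matrix.scalar (ι ⊕ Unit) (cc c) := by
    rw [← hB0, ← map_pow, hc]
    ext i j
    simp only [RingHom.mapMatrix_apply, Matrix.map_apply, Matrix.scalar_apply,
      Matrix.diagonal_apply]
    split_ifs
    · rfl
    · exact map_zero _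
  have hpow2 : b0 ^ ν = Matrix.scalar ι (cc c) ∧ β1 ^ ν = cc c := by
    obtain ⟨r', hr'⟩ := blocks_pow b0 r0 (Matrix.scalar Unit β1) ν
    rw [hr', scalar_eq_blocks] at hpow
    have h5 := Matrix.fromBlocks_inj.mp hpow
    refine ⟨h5.1, ?_⟩
    have h6 := h5.2.2.2
    rw [← map_pow] at h6
    have h7 := congrFun (congrFun h6 PUnit.unit) PUnit.unit
    simpa using h7
  by_cases hc0 : cc c = 0
  · -- the nilpotent case
    exfalso
    have h5 : b0 = 0 := by
      apply zero_of_nilpotent ha hb0 (k := ν)
      rw [hpow2.1, hc0, map_zero]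
    have h6 : β1 = 0 := (pow_eq_zero_iff hpos).mp (hpow2.2.trans hc0)
    have h7 : ∀ i j : ι, ∃ a : A[X], B (Sum.inl i) (Sum.inl j) = X * a := by
      intro i j
      apply dvd_of_coeff_zero
      have := congrFun (congrFun h5 i) j
      simpa [b0, Polynomial.constantCoeff_apply] using this
    choose a haa using h7
    obtain ⟨bb, hbb⟩ : ∃ a : A[X], B u u = X * a := by
      apply dvd_of_coeff_zero
      simpa [β1, Polynomial.constantCoeff_apply] using h6
    let aM : Matrix ι ι A[X] := Matrix.of a
    let RM : Matrix ι Unit A[X] := Matrix.of fun i _ => R i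
    let rM : Matrix Unit ι A[X] := Matrix.of fun _ j => B u (Sum.inl j)
    let bM : Matrix Unit Unit A[X] := Matrix.of fun _ _ => bb
    have hBM : B = fromBlocks ((X : A[X]) • aM) ((X : A[X]) • RM) rM ((X : A[X]) • bM) := by
      ext1 i j
      rcases i with i | i <;> rcases j with j | j
      · simp [aM, haa]
      · have : j = PUnit.unit := rfl
        subst this
        have h8 := hR1 i
        simp only [u] at h8
        simp [RM, h8]
      · have : i = PUnit.unit := rfl
        subst this
        simp [rM, u]
      · have : i = PUnit.unit := rfl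
        subst this
        have : j = PUnit.unit := rfl
        subst this
        simp only [u] at hbb
        simp [bM, hbb]
    let M : Matrix (ι ⊕ Unit) (ι ⊕ Unit) A[X] :=
      fromBlocks ((X : A[X]) • (aM * aM) + RM * rM) ((X : A[X]) • (aM * RM + RM * bM))
        (rM * aM + bM * rM) (rM * RM + (X : A[X]) • (bM * bM))
    have hBB : B * B = (X : A[X]) • M := by
      rw [hBM, Matrix.fromBlocks_multiply, Matrix.fromBlocks_smul]
      congr 1 <;>
      simp only [Matrix.smul_mul, Matrix.mul_smul, smul_add, smul_smul]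
    have hMpow : (X : A[X]) ^ ν • M ^ ν = Matrix.scalar _ (c * c) := by
      rw [← _root_.smul_pow, ← hBB, map_mul, ← hc, ← pow_two, ← pow_two, ← pow_mul, ← pow_mul, mul_comm]
    let q : A := ∑ j, cc (B u (Sum.inl j)) * cc (R j)
    have hM0 : ∃ (x : Matrix ι ι A) (y : Matrix Unit ι A),
        (cc (A := A)).mapMatrix M = fromBlocks x 0 y (Matrix.scalar Unit q) := by
      refine ⟨(cc (A := A)).mapMatrix ((X : A[X]) • (aM * aM) + RM * rM),
        Matrix.map (rM * aM + bM * rM) cc, ?_⟩
      ext i j
      rcases i with i | i <;> rcases j with j | j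
      · simp [M]
      · simp [M, Polynomial.constantCoeff_apply]
      · simp [M]
      · have : i = PUnit.unit := rfl
        subst this
        have : j = PUnit.unit := rfl
        subst this
        simp [M, q, Matrix.mul_apply, rM, RM, Polynomial.constantCoeff_apply, Matrix.sum_apply,
          Matrix.diagonal_apply_eq]
    obtain ⟨x, y, hxy⟩ := hM0
    have hgq : cc ((M ^ ν) u u) = q ^ ν := by
      have h8 : (cc (A := A)).mapMatrix (M ^ ν) u u = q ^ ν := by
        rw [map_pow, hxy]
        obtain ⟨r', hr'⟩ := blocks_pow x y (Matrix.scalar Unit q) ν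
        rw [hr', ← map_pow]
        simp [u]
      simpa using h8
    have hq : q ≠ 0 := by
      intro hq0
      have h8 : ∀ j, cc (B u (Sum.inl j)) = d j * s (cc (R j)) := by
        intro j
        have h9 := congrArg (fun f => Polynomial.coeff f 0) (hR2 j)
        simp only [coeff_zero_mul, Polynomial.coeff_C_zero, coeff_ext] at h9
        have h10 := congrArg s h9
        rw [hs, map_mul, hfix] at h10
        simp only [Polynomial.constantCoeff_apply]
        exact h10.symm
      have h9 := ha (fun j => cc (R j)) (by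
        rw [← hq0]
        apply Finset.sum_congr rfl
        intro j _
        rw [h8]
        ring)
      obtain ⟨i, j, hij⟩ := hne
      apply hij
      rcases i with i | i <;> rcases j with j | j
      · rw [haa i j]; simp
      · have : j = PUnit.unit := rfl
        subst this
        have h10 := hR1 i
        simp only [u] at h10
        rw [h10]; simp
      · have : i = PUnit.unit := rfl
        subst this
        have h10 := h8 j
        rw [congrFun h9 j] at h10
        simp only [Pi.zero_apply, map_zero, mul_zero] at h10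
        simpa [Polynomial.constantCoeff_apply, u] using h10
      · have : i = PUnit.unit := rfl
        subst this
        have : j = PUnit.unit := rfl
        subst this
        simp only [u] at hbb
        rw [hbb]; simp
    have hent : (X : A[X]) ^ ν * (M ^ ν) u u = c * c := by
      have h8 := congrFun (congrFun hMpow u) u
      simpa using h8
    have hg0 : ((M ^ ν) u u).coeff 0 ≠ 0 := by
      have h8 : ((M ^ ν) u u).coeff 0 = q ^ ν := by
        rw [← hgq, Polynomial.constantCoeff_apply]
      rw [h8]
      exact pow_ne_zero _ hq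
    have hg1 : (M ^ ν) u u ≠ 0 := by
      intro h8
      rw [h8] at hg0
      exact hg0 (Polynomial.coeff_zero 0)
    have hcne : c ≠ 0 := by
      rintro rfl
      rw [mul_zero] at hent
      rcases mul_eq_zero.mp hent with h8 | h8
      · exact pow_ne_zero _ X_ne_zero h8
      · exact hg1 h8
    have h8 := congrArg Polynomial.natTrailingDegree hent
    rw [Polynomial.natTrailingDegree_mul (pow_ne_zero _ X_ne_zero) hg1,
      Polynomial.natTrailingDegree_mul hcne hcne,
      Polynomial.natTrailingDegree_eq_zero.mpr (Or.inr hg0)] at h8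
    have h9 : (X ^ ν : A[X]).natTrailingDegree = ν := by
      rw [Polynomial.natTrailingDegree_X_pow]
    rw [h9] at h8
    obtain ⟨t, ht⟩ := hodd
    omega
  · -- the invertible case
    rcases isEmpty_or_nonempty ι with hι | ⟨⟨i₀⟩⟩
    · refine ⟨B u u, ?_⟩
      ext1 i j
      rcases i with i | i
      · exact (hι.false i).elim
      · rcases j with j | j
        · exact (hι.false j).elim
        · have : i = PUnit.unit := rfl
          subst this
          have : j = PUnit.unit := rfl
          subst this
          simp [u]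
    obtain ⟨β0, hβ0⟩ := hr b0 hb0 ⟨_, hpow2.1⟩
    have hβ0s : s β0 = β0 := by
      have h5 := hb0 i₀ i₀
      rw [hβ0] at h5
      simp only [Matrix.scalar_apply, Matrix.diagonal_apply_eq] at h5
      exact (mul_left_cancel₀ (hd i₀) h5).symm
    have hβ0p : β0 ^ ν = cc c := by
      have h5 := hpow2.1
      rw [hβ0, ← map_pow] at h5
      have h6 := congrFun (congrFun h5 i₀) i₀
      simpa using h6
    have hββ : β0 = β1 := hR β0 β1 hβ0s hβ1 (hβ0p.trans hpow2.2.symm)
    have hβne : β1 ≠ 0 := by
      rintro h5
      rw [h5, zero_pow hpos] at hpow2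
      exact hc0 hpow2.2.symm
    have hr0 : r0 = 0 := by
      rw [hβ0, hββ, blocks_pow_scalar, scalar_eq_blocks] at hpow
      have h5 := (Matrix.fromBlocks_inj.mp hpow).2.2.1
      have h6 : (ν : A) * β1 ^ (ν - 1) ≠ 0 := mul_ne_zero hν (pow_ne_zero _ hβne)
      exact (smul_eq_zero.mp h5).resolve_left h6
    have hB0' : (cc (A := A)).mapMatrix B = Matrix.scalar (ι ⊕ Unit) β1 := by
      rw [hB0, hβ0, hββ, hr0, scalar_eq_blocks]
    -- factorisation
    set f : A[X] := B u u with hf
    have hcomm : Commute B (Matrix.scalar (ι ⊕ Unit) f) :=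
      (Matrix.scalar_commute f (fun r => mul_comm f r) B).symm
    have hgeom := hcomm.mul_geom_sum₂ ν
    set U : Matrix (ι ⊕ Unit) (ι ⊕ Unit) A[X] :=
      ∑ i ∈ Finset.range ν, B ^ i * (Matrix.scalar (ι ⊕ Unit) f) ^ (ν - 1 - i) with hU
    have hfβ : cc f = β1 := rfl
    have hU0 : (cc (A := A)).mapMatrix U = Matrix.scalar (ι ⊕ Unit) (ν * β1 ^ (ν - 1)) := by
      have h5 : (cc (A := A)).mapMatrix (Matrix.scalar (ι ⊕ Unit) f)
          = Matrix.scalar (ι ⊕ Unit) β1 := by
        ext i j
        simp only [RingHom.mapMatrix_apply, Matrix.map_apply, Matrix.scalar_apply,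
          Matrix.diagonal_apply]
        split_ifs
        · exact hfβ
        · exact map_zero _
      rw [hU, map_sum]
      have h6 : ∀ i ∈ Finset.range ν, (cc (A := A)).mapMatrix
          (B ^ i * (Matrix.scalar (ι ⊕ Unit) f) ^ (ν - 1 - i))
          = Matrix.scalar (ι ⊕ Unit) (β1 ^ (ν - 1)) := by
        intro i hi
        rw [map_mul, map_pow, map_pow, h5, hB0', ← map_pow (Matrix.scalar (ι ⊕ Unit)) β1 i,
          ← map_pow (Matrix.scalar (ι ⊕ Unit)) β1 (ν - 1 - i), ← map_mul, ← pow_add]
        congr 2
        have := Finset.mem_range.mp hi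
        omega
      rw [Finset.sum_congr rfl h6, Finset.sum_const, Finset.card_range, ← map_nsmul, nsmul_eq_mul]
    rw [hc, ← map_pow, ← map_sub] at hgeom
    set c1 : A[X] := c - f ^ ν with hc1
    have hadj : U.det • (B - Matrix.scalar (ι ⊕ Unit) f) = c1 • U.adjugate := by
      have h5 : (B - Matrix.scalar (ι ⊕ Unit) f) * (U * U.adjugate)
          = Matrix.scalar (ι ⊕ Unit) c1 * U.adjugate := by
        rw [← Matrix.mul_assoc, hgeom]
      rw [Matrix.mul_adjugate, Matrix.mul_smul, Matrix.mul_one] at h5
      rw [h5]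
      ext1 i j
      simp [Matrix.scalar_apply, Matrix.diagonal_mul]
    have hν' : (ν : A) * β1 ^ (ν - 1) ≠ 0 := mul_ne_zero hν (pow_ne_zero _ hβne)
    have hdet : U.det ≠ 0 := by
      intro h5
      have h6 : cc U.det = ((cc (A := A)).mapMatrix U).det := RingHom.map_det _ _
      rw [h5, hU0, map_zero, Matrix.scalar_apply, Matrix.det_diagonal, Finset.prod_const] at h6
      exact pow_ne_zero _ hν' h6.symm
    have hadj0 : U.adjugate u u ≠ 0 := by
      intro h5
      have h6 : (cc (A := A)).mapMatrix U.adjugate = ((cc (A := A)).mapMatrix U).adjugate :=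
        RingHom.map_adjugate _ _
      have h7 := congrFun (congrFun h6 u) u
      rw [hU0, Matrix.scalar_apply, Matrix.adjugate_diagonal, Matrix.diagonal_apply_eq,
        Finset.prod_const] at h7
      simp only [RingHom.mapMatrix_apply, Matrix.map_apply, h5, map_zero] at h7
      exact pow_ne_zero _ hν' h7.symm
    have hc1z : c1 = 0 := by
      have h5 := congrFun (congrFun hadj u) u
      simp only [Matrix.smul_apply, Matrix.sub_apply, Matrix.scalar_apply,
        Matrix.diagonal_apply_eq, smul_eq_mul] at h5
      rw [← hf, sub_self, mul_zero] at h5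
      exact (mul_eq_zero.mp h5.symm).resolve_right hadj0
    rw [hc1z, zero_smul] at hadj
    exact ⟨f, sub_eq_zero.mp ((smul_eq_zero.mp hadj).resolve_left hdet)⟩

end Pool.Agent.Helper12.Herm
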