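import Mathlib
import Pool.Agent.Helper12.Herm.RigidStep

/-!
Existence of rigid anisotropic forms in every dimension.
-/

set_option linter.unusedSectionVars false

open Matrix Polynomial

namespace Pool.Agent.Helper12.Herm

section Step

variable {A : Type*} [CommRing A] [IsDomain A] {ι : Type*} [Fintype ι] [DecidableEq ι]

theorem rigid_ext {s : A →+* A} (hs : ∀ a, s (s a) = a) {ν : ℕ} (hν : (ν : A) ≠ 0)
    (hodd : Odd ν) (hR : Roots s ν) {d : ι → A} (hfix : ∀ i, s (d i) = d i) (ha : Aniso s d)
    (hr : Rigid s ν d) : Rigid (ext s) ν (dext d) := by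
  have hpos : ν ≠ 0 := hR.pos.ne'
  have key : ∀ m : ℕ, ∀ B : Matrix (ι ⊕ Unit) (ι ⊕ Unit) A[X], SA (ext s) (dext d) B →
      Scal (B ^ ν) → (∃ i j, B i j ≠ 0 ∧ (B i j).natDegree < m) → Scal B := by
    intro m
    induction m with
    | zero => rintro B _ _ ⟨i, j, _, h⟩; omega
    | succ m ih =>
      intro B hB hpow hex
      by_cases hne : ∃ i j, (B i j).coeff 0 ≠ 0
      · obtain ⟨c, hc⟩ := hpow
        exact rigid_unit hs hν hodd hR hfix ha hr hB hc hne
      · push Not at hne
        choose B' hB' using fun i j => dvd_of_coeff_zero (hne i j)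
        have hBB : B = (X : A[X]) • Matrix.of B' := by
          ext1 i j
          simp [hB']
        obtain ⟨c, hc⟩ := hpow
        rw [hBB, _root_.smul_pow] at hc
        have h1 : SA (ext s) (dext d) (Matrix.of B') := by
          intro i j
          have h2 := hB i j
          rw [hB' i j, hB' j i, map_mul, ext_X] at h2
          have h3 : (X : A[X]) * (dext d i * B' i j) = X * (dext d j * ext s (B' j i)) := by
            linear_combination h2
          exact mul_left_cancel₀ X_ne_zero h3
        have h2 : Scal (Matrix.of B' ^ ν) := by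
          refine ⟨(Matrix.of B' ^ ν) (Sum.inr PUnit.unit) (Sum.inr PUnit.unit), ?_⟩
          have hX : (X : A[X]) ^ ν ≠ 0 := pow_ne_zero _ X_ne_zero
          ext1 i j
          have h3 := congrFun (congrFun hc i) j
          have h4 := congrFun (congrFun hc (Sum.inr PUnit.unit)) (Sum.inr PUnit.unit)
          rw [Matrix.smul_apply, smul_eq_mul, Matrix.scalar_apply] at h3 h4
          rw [Matrix.diagonal_apply_eq] at h4
          rw [Matrix.scalar_apply]
          by_cases hij : i = j
          · subst hij
            rw [Matrix.diagonal_apply_eq] at h3 ⊢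
            exact mul_left_cancel₀ hX (h3.trans h4.symm)
          · rw [Matrix.diagonal_apply_ne _ hij] at h3 ⊢
            exact (mul_eq_zero.mp h3).resolve_left hX
        have h3 : ∃ i j, (Matrix.of B') i j ≠ 0 ∧ ((Matrix.of B') i j).natDegree < m := by
          obtain ⟨i, j, h4, h5⟩ := hex
          rw [hB' i j] at h4 h5
          have h6 : B' i j ≠ 0 := right_ne_zero_of_mul h4
          refine ⟨i, j, h6, ?_⟩
          rw [Polynomial.natDegree_X_mul h6] at h5
          simp only [Matrix.of_apply]
          omega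
        obtain ⟨e, he⟩ := ih _ h1 h2 h3
        refine ⟨X * e, ?_⟩
        rw [hBB, he]
        ext1 i j
        simp only [Matrix.smul_apply, Matrix.scalar_apply, Matrix.diagonal_apply, smul_eq_mul]
        split_ifs <;> simp
  intro B hB hpow
  by_cases h0 : B = 0
  · exact ⟨0, by rw [h0, map_zero]⟩
  · obtain ⟨i, j, hij⟩ : ∃ i j, B i j ≠ 0 := by
      by_contra h
      push Not at h
      exact h0 (by ext1 i j; exact h i j)
    exact key ((B i j).natDegree + 1) B hB hpow ⟨i, j, hij, Nat.lt_succ_self _⟩

variable {κ : Type*} [Fintype κ] [DecidableEq κ]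

theorem Aniso.reindex {s : A →+* A} {d : ι → A} (h : Aniso s d) (e : κ ≃ ι) :
    Aniso s (d ∘ e) := by
  intro x hx
  have h1 := h (x ∘ e.symm) (by
    rw [← hx, ← e.sum_comp]
    simp)
  funext i
  have := congrFun h1 (e i)
  simpa using this

theorem scal_submatrix {b : Matrix ι ι A} (h : Scal b) (e : κ ≃ ι) : Scal (b.submatrix e e) := by
  obtain ⟨c, hc⟩ := h
  refine ⟨c, ?_⟩
  rw [hc]
  ext1 i j
  simp [Matrix.diagonal_apply]

theorem submatrix_pow (b : Matrix ι ι A) (e : κ ≃ ι) (k : ℕ) :
    (b.submatrix e e) ^ k = (b ^ k).submatrix e e := by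
  induction k with
  | zero => rw [pow_zero, pow_zero, Matrix.submatrix_one_equiv]
  | succ k ih => rw [pow_succ, ih, pow_succ, Matrix.submatrix_mul_equiv]

theorem Rigid.reindex {s : A →+* A} {ν : ℕ} {d : ι → A} (h : Rigid s ν d) (e : κ ≃ ι) :
    Rigid s ν (d ∘ e) := by
  intro b hb hpow
  have h1 : b = (b.submatrix e.symm e.symm).submatrix e e := by
    ext1 i j; simp
  rw [h1]
  apply scal_submatrix
  apply h
  · intro i j
    have := hb (e.symm i) (e.symm j)
    simpa using this
  · rw [submatrix_pow]
    exact scal_submatrix hpow e.symm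

end Step

section Base

variable {A : Type*} [CommRing A] [IsDomain A]

theorem aniso_one {s : A →+* A} (hs : ∀ a, s (s a) = a) : Aniso s (fun _ : Fin 1 => (1 : A)) := by
  intro x hx
  simp only [Finset.univ_unique, Finset.sum_singleton, one_mul] at hx
  funext j
  have hj : j = default := Subsingleton.elim _ _
  subst hj
  rcases mul_eq_zero.mp hx with h | h
  · exact h
  · exact inj_of_invol hs h

theorem rigid_one (s : A →+* A) (ν : ℕ) : Rigid s ν (fun _ : Fin 1 => (1 : A)) := by
  intro b _ _
  refine ⟨b 0 0, ?_⟩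
  ext1 i j
  have hi : i = 0 := Subsingleton.elim _ _
  have hj : j = 0 := Subsingleton.elim _ _
  subst hi; subst hj
  simp

end Base

universe u

/-- Existence of good forms of rank `n + 1`. -/
theorem exists_good {A₀ : Type u} [CommRing A₀] [IsDomain A₀] (s₀ : A₀ →+* A₀)
    (hs₀ : ∀ a, s₀ (s₀ a) = a) {ν : ℕ} (hν : (ν : A₀) ≠ 0) (hodd : Odd ν) (hR₀ : Roots s₀ ν)
    (n : ℕ) :
    ∃ (A : Type u) (_ : CommRing A) (_ : IsDomain A) (i : A₀ →+* A) (s : A →+* A)
      (d : Fin (n + 1) → A), Function.Injective i ∧ (∀ a, s (s a) = a) ∧ (∀ a, s (i a) = i (s₀ a)) ∧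
      (ν : A) ≠ 0 ∧ Roots s ν ∧ (∀ j, s (d j) = d j) ∧ Aniso s d ∧ Rigid s ν d ∧
      (0 < n → {a : A | s a = a}.Infinite) := by
  induction n with
  | zero =>
    exact ⟨A₀, inferInstance, inferInstance, RingHom.id _, s₀, fun _ => 1, Function.injective_id,
      hs₀, fun _ => rfl, hν, hR₀, fun _ => map_one _, aniso_one hs₀, rigid_one s₀ ν,
      fun h => absurd h (lt_irrefl 0)⟩
  | succ n ih =>
    obtain ⟨A, _, _, i, s, d, hi, hs, hsi, hν', hR, hfix, ha, hr, _⟩ := ih
    refine ⟨A[X], inferInstance, inferInstance, (C : A →+* A[X]).comp i, ext s,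
      dext d ∘ (finSumFinEquiv.symm.trans (Equiv.sumCongr (Equiv.refl _) (Equiv.ofUnique (Fin 1) Unit))),
      Polynomial.C_injective.comp hi, ext_ext hs, ?_, ?_, roots_ext hs hν' hR, ?_,
      (aniso_ext hs ha).reindex _, (rigid_ext hs hν' hodd hR hfix ha hr).reindex _, ?_⟩
    · intro a
      simp only [RingHom.comp_apply]
      rw [ext_C, hsi]
    · intro h
      apply hν'
      have : ((ν : A[X])) = C (ν : A) := by simp
      rw [this] at h
      exact Polynomial.C_injective (by rw [h, map_zero])
    · intro j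
      simp only [Function.comp_apply]
      rcases (finSumFinEquiv.symm.trans (Equiv.sumCongr (Equiv.refl _)
        (Equiv.ofUnique (Fin 1) Unit))) j with k | k
      · simp [dext, ext_C, hfix]
      · simp [dext, ext_X]
    · intro _
      apply Set.Infinite.mono (s := Set.range (fun k : ℕ => (X : A[X]) ^ k))
      · rintro _ ⟨k, rfl⟩
        simp only [Set.mem_ofPred_eq, map_pow, ext_X]
      · apply Set.infinite_range_of_injective
        intro k l hkl
        have := congrArg Polynomial.natDegree hkl
        simpa using this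

end Pool.Agent.Helper12.Herm
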