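import Mathlib
import Pool.Agent.Helper12.Herm.Exist

/-!
Rigid anisotropic forms over fields: passage to the fraction field, and all exponents.
-/

set_option linter.unusedSectionVars false

open Matrix Polynomial

namespace Pool.Agent.Helper12.Herm

section Frac

variable {A : Type*} [CommRing A] [IsDomain A] {ι : Type*} [Fintype ι] [DecidableEq ι]

/-- The involution on the fraction field. -/
noncomputable def fr {s : A →+* A} (hs : ∀ a, s (s a) = a) : FractionRing A →+* FractionRing A :=
  IsFractionRing.map (A := A) (B := A) (K := FractionRing A) (L := FractionRing A) (j := s)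
    (fun a b h => by rw [← hs a, ← hs b, h])

theorem fr_alg {s : A →+* A} (hs : ∀ a, s (s a) = a) (a : A) :
    fr hs (algebraMap A (FractionRing A) a) = algebraMap A (FractionRing A) (s a) := by
  unfold fr IsFractionRing.map
  exact IsLocalization.map_eq _ a

theorem fr_fr {s : A →+* A} (hs : ∀ a, s (s a) = a) (x : FractionRing A) :
    fr hs (fr hs x) = x := by
  obtain ⟨a, b, hb, rfl⟩ := IsFractionRing.div_surjective (A := A) x
  rw [map_div₀, map_div₀, fr_alg, fr_alg, fr_alg, fr_alg, hs, hs]

theorem aniso_frac {s : A →+* A} (hs : ∀ a, s (s a) = a) {d : ι → A} (h : Aniso s d) :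
    Aniso (fr hs) (fun i => algebraMap A (FractionRing A) (d i)) := by
  intro x hx
  obtain ⟨b, hb⟩ := IsLocalization.exist_integer_multiples_of_finite (nonZeroDivisors A) x
  choose y hy using hb
  have hinj := IsFractionRing.injective A (FractionRing A)
  have h1 := h y (by
    apply hinj
    rw [map_sum, map_zero]
    have h2 : ∀ i, algebraMap A (FractionRing A) (d i * y i * s (y i))
        = (algebraMap A (FractionRing A) (b : A) * algebraMap A (FractionRing A) (s (b : A)))
          * (algebraMap A (FractionRing A) (d i) * x i * fr hs (x i)) := by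
      intro i
      rw [map_mul, map_mul, ← fr_alg hs, ← fr_alg hs, hy i, Algebra.smul_def, map_mul]
      ring
    simp_rw [h2]
    rw [← Finset.mul_sum, hx, mul_zero])
  funext i
  have h3 := hy i
  rw [h1, Pi.zero_apply, map_zero, Algebra.smul_def] at h3
  have h4 : algebraMap A (FractionRing A) (b : A) ≠ 0 :=
    IsFractionRing.to_map_ne_zero_of_mem_nonZeroDivisors b.2
  exact (mul_eq_zero.mp h3.symm).resolve_left h4

theorem rigid_frac [Nonempty ι] {s : A →+* A} (hs : ∀ a, s (s a) = a) {ν : ℕ} {d : ι → A}
    (h : Rigid s ν d) : Rigid (fr hs) ν (fun i => algebraMap A (FractionRing A) (d i)) := by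
  intro M hM hpow
  obtain ⟨i₀⟩ := ‹Nonempty ι›
  obtain ⟨b, hb⟩ := IsLocalization.exist_integer_multiples_of_finite (nonZeroDivisors A)
    (fun t : ι × ι => M t.1 t.2)
  choose y hy using hb
  have hinj := IsFractionRing.injective A (FractionRing A)
  have hb0 : (b : A) ≠ 0 := nonZeroDivisors.ne_zero b.2
  have hsb0 : s (b : A) ≠ 0 := fun h0 => hb0 (inj_of_invol hs h0)
  set D : A := (b : A) * s b with hD
  have hD0 : algebraMap A (FractionRing A) D ≠ 0 := by
    intro h0
    exact mul_ne_zero hb0 hsb0 (hinj (by rw [h0, map_zero]))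
  have hsD : s D = D := by rw [hD, map_mul, hs, mul_comm]
  let B : Matrix ι ι A := Matrix.of fun i j => s b * y (i, j)
  have hBm : B.map (algebraMap A (FractionRing A)) = (algebraMap A (FractionRing A) D) • M := by
    ext1 i j
    have h1 := hy (i, j)
    rw [Algebra.smul_def] at h1
    simp only [B, Matrix.map_apply, Matrix.of_apply, Matrix.smul_apply, smul_eq_mul, map_mul, hD]
    rw [h1]; ring
  have hBe : ∀ i j, algebraMap A (FractionRing A) (B i j) = algebraMap A (FractionRing A) D * M i j := by
    intro i j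
    have := congrFun (congrFun hBm i) j
    simpa using this
  have hSA : SA s d B := by
    intro i j
    apply hinj
    have h1 : algebraMap A (FractionRing A) (s (B j i))
        = algebraMap A (FractionRing A) D * fr hs (M j i) := by
      rw [← fr_alg hs, hBe j i]
      have h2 := map_mul (fr hs) (algebraMap A (FractionRing A) D) (M j i)
      rw [h2, fr_alg, hsD]
    rw [map_mul, map_mul, hBe i j, h1]
    have := hM i j
    linear_combination (algebraMap A (FractionRing A) D) * this
  have hSc : Scal (B ^ ν) := by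
    obtain ⟨c, hc⟩ := hpow
    have h1 : (B ^ ν).map (algebraMap A (FractionRing A))
        = Matrix.scalar ι ((algebraMap A (FractionRing A) D) ^ ν * c) := by
      have h2 : (algebraMap A (FractionRing A)).mapMatrix (B ^ ν)
          = ((algebraMap A (FractionRing A)).mapMatrix B) ^ ν := map_pow _ _ _
      simp only [RingHom.mapMatrix_apply] at h2
      rw [h2, hBm, _root_.smul_pow, hc]
      ext1 i j
      simp only [Matrix.smul_apply, Matrix.scalar_apply, Matrix.diagonal_apply, smul_eq_mul]
      split_ifs <;> simp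
    refine ⟨(B ^ ν) i₀ i₀, ?_⟩
    ext1 i j
    apply hinj
    have h3 := congrFun (congrFun h1 i) j
    have h4 := congrFun (congrFun h1 i₀) i₀
    rw [Matrix.map_apply, Matrix.scalar_apply] at h3 h4
    rw [Matrix.diagonal_apply_eq] at h4
    rw [Matrix.scalar_apply]
    by_cases hij : i = j
    · subst hij
      rw [Matrix.diagonal_apply_eq] at h3 ⊢
      exact h3.trans h4.symm
    · rw [Matrix.diagonal_apply_ne _ hij] at h3 ⊢
      rw [h3, map_zero]
  obtain ⟨e, he⟩ := h B hSA hSc
  refine ⟨algebraMap A (FractionRing A) e / algebraMap A (FractionRing A) D, ?_⟩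
  ext1 i j
  have h5 := hBe i j
  rw [he, Matrix.scalar_apply] at h5
  rw [Matrix.scalar_apply]
  by_cases hij : i = j
  · subst hij
    rw [Matrix.diagonal_apply_eq] at h5 ⊢
    rw [h5]; field_simp
  · rw [Matrix.diagonal_apply_ne _ hij] at h5 ⊢
    rw [map_zero] at h5
    exact (mul_eq_zero.mp h5.symm).resolve_left hD0

end Frac

universe u

theorem roots_field {K : Type*} [Field K] (κ : K →+* K) {ν : ℕ} (hν : ν ≠ 0)
    (hroot : ∀ ω : K, ω ^ ν = 1 → κ ω = ω → ω = 1) : Roots κ ν := by
  intro x y hx hy hxy
  by_cases h0 : y = 0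
  · rw [h0, zero_pow hν] at hxy
    rw [h0, (pow_eq_zero_iff hν).mp hxy]
  · have h1 := hroot (x / y) (by rw [div_pow, hxy, div_self (pow_ne_zero _ h0)])
      (by rw [map_div₀, hx, hy])
    exact (div_eq_one_iff_eq h0).mp h1

/-- Good forms over fields, exponents prime to the characteristic. -/
theorem exists_good_field {K : Type u} [Field K] (κ : K →+* K) (hκ : ∀ a, κ (κ a) = a) {ν : ℕ}
    (hν : (ν : K) ≠ 0) (hodd : Odd ν) (hroot : ∀ ω : K, ω ^ ν = 1 → κ ω = ω → ω = 1)
    {n : ℕ} (hn : 0 < n) :
    ∃ (E : Type u) (_ : Field E) (i : K →+* E) (s : E →+* E) (d : Fin (n + 1) → E),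
      (∀ a, s (s a) = a) ∧ (∀ a, s (i a) = i (κ a)) ∧ (∀ j, s (d j) = d j) ∧ Aniso s d ∧
      Rigid s ν d ∧ (∃ θ, s θ ≠ θ) ∧ {a : E | s a = a}.Infinite := by
  have hν0 : ν ≠ 0 := by rintro rfl; simp at hν
  have hR := roots_field κ hν0 hroot
  -- the starting domain
  obtain ⟨A₀, _, _, i₀, s₀, h1, h2, h3, h4, θ, hθ⟩ : ∃ (A₀ : Type u) (_ : CommRing A₀)
      (_ : IsDomain A₀) (i₀ : K →+* A₀) (s₀ : A₀ →+* A₀), (∀ a, s₀ (s₀ a) = a) ∧
      (∀ a, s₀ (i₀ a) = i₀ (κ a)) ∧ (ν : A₀) ≠ 0 ∧ Roots s₀ ν ∧ ∃ θ, s₀ θ ≠ θ := by
    by_cases hid : κ = RingHom.id K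
    · subst hid
      refine ⟨K[X][X], inferInstance, inferInstance, (C : K[X] →+* K[X][X]).comp C,
        (Polynomial.Bivariate.swap (R := K)).toRingHom, ?_, ?_, ?_, ?_, X, ?_⟩
      · intro a
        have := Polynomial.Bivariate.swap_swap_apply a
        simpa using this
      · intro a
        exact Polynomial.Bivariate.swap_C_C a
      · intro h
        apply hν
        have h5 : ((ν : K[X][X])) = C (C (ν : K)) := by simp
        rw [h5] at h
        exact Polynomial.C_injective (by
          rw [map_zero]
          exact Polynomial.C_injective (by rw [h, map_zero]))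
      · have h5 := roots_ext (s := RingHom.id K) (fun _ => rfl) hν hR
        have h6 : ext (RingHom.id K) = RingHom.id K[X] := by
          simp [ext]
        rw [h6] at h5
        have hν2 : (ν : K[X]) ≠ 0 := by
          intro h
          apply hν
          have h5 : ((ν : K[X])) = C (ν : K) := by simp
          rw [h5] at h
          exact Polynomial.C_injective (by rw [h, map_zero])
        have h7 := roots_ext (s := RingHom.id K[X]) (fun _ => rfl) hν2 h5
        have h8 : ext (RingHom.id K[X]) = RingHom.id K[X][X] := by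
          simp [ext]
        rw [h8] at h7
        exact fun x y _ _ hxy => h7 x y rfl rfl hxy
      · intro h
        have h5 : Polynomial.Bivariate.swap (R := K) (X : K[X][X]) = C X :=
          Polynomial.Bivariate.swap_Y
        have h6 : (C X : K[X][X]) = X := h5.symm.trans h
        have h7 := congrArg (fun f => Polynomial.coeff f 0) h6
        simp at h7
    · refine ⟨K, inferInstance, inferInstance, RingHom.id K, κ, hκ, fun _ => rfl, hν, hR, ?_⟩
      by_contra h
      push Not at h
      exact hid (RingHom.ext h)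
  obtain ⟨A, _, _, i, s, d, g1, g2, g3, g4, g5, g6, g7, g8, g9⟩ :=
    exists_good s₀ h1 h3 hodd h4 n
  have hinj := IsFractionRing.injective A (FractionRing A)
  refine ⟨FractionRing A, inferInstance, ((algebraMap A (FractionRing A)).comp i).comp i₀,
    fr g2, fun j => algebraMap A (FractionRing A) (d j), fr_fr g2, ?_, ?_, aniso_frac g2 g7,
    rigid_frac g2 g8, ⟨algebraMap A (FractionRing A) (i θ), ?_⟩, ?_⟩
  · intro a
    simp only [RingHom.comp_apply]
    rw [fr_alg, g3, h2]
  · intro j
    rw [fr_alg, g6]
  · rw [fr_alg, g3]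
    intro h
    exact hθ (g1 (hinj h))
  · apply Set.Infinite.mono (s := (algebraMap A (FractionRing A)) '' {a : A | s a = a})
    · rintro _ ⟨a, ha, rfl⟩
      simp only [Set.mem_ofPred_eq] at ha ⊢
      rw [fr_alg, ha]
    · exact (g9 hn).image hinj.injOn

end Pool.Agent.Helper12.Herm
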