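import Mathlib
import Pool.Agent.Helper12.Herm.Field

/-!
Rigid anisotropic forms over fields: all odd exponents, also those divisible by the characteristic.
-/

set_option linter.unusedSectionVars false

open Matrix Polynomial

namespace Pool.Agent.Helper12.Herm

section Frob

variable {E : Type*} [Field E] {ι : Type*} [Fintype ι] [DecidableEq ι]

theorem scal_of_pow_char {s : E →+* E} {d : ι → E} (hfix : ∀ i, s (d i) = d i) (ha : Aniso s d)
    {p : ℕ} [hp : Fact p.Prime] [CharP E p] (hodd : Odd p) {w : Matrix ι ι E} (hw : SA s d w)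
    (hsc : Scal (w ^ p)) : Scal w := by
  rcases isEmpty_or_nonempty ι with hι | ⟨⟨i₀⟩⟩
  · exact ⟨0, by ext1 i; exact (hι.false i).elim⟩
  obtain ⟨c, hc⟩ := hsc
  have hd := ha.ne_zero
  have hcs : s c = c := by
    have h1 := hw.pow p i₀ i₀
    rw [hc] at h1
    simp only [Matrix.scalar_apply, Matrix.diagonal_apply_eq] at h1
    exact (mul_left_cancel₀ (hd i₀) h1).symm
  set wp : Matrix ι ι E := w.map (frobenius E p) with hwp
  have hwpp : wp ^ p = Matrix.scalar ι (c ^ p) := by
    have h1 : (frobenius E p).mapMatrix (w ^ p) = ((frobenius E p).mapMatrix w) ^ p := map_pow _ _ _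
    simp only [RingHom.mapMatrix_apply] at h1
    rw [hwp, ← h1, hc]
    ext1 i j
    simp only [Matrix.map_apply, Matrix.scalar_apply, Matrix.diagonal_apply]
    split_ifs
    · rw [frobenius_def]
    · exact map_zero _
  have hcomm : Commute wp (Matrix.scalar ι c) :=
    (Matrix.scalar_commute c (fun r => mul_comm c r) wp).symm
  have hN : (wp - Matrix.scalar ι c) ^ p = 0 := by
    have : Nonempty ι := ⟨i₀⟩
    have : CharP (Matrix ι ι E) p := Matrix.charP p
    rw [sub_pow_char_of_commute p hcomm, hwpp, ← map_pow, sub_self]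
  obtain ⟨m, hm⟩ := hodd
  have ha' : Aniso s (fun i => d i ^ p) := by
    intro x hx
    have h1 := ha (fun i => d i ^ m * x i) (by
      rw [← hx]
      apply Finset.sum_congr rfl
      intro i _
      rw [map_mul, map_pow, hfix, hm]
      ring)
    funext i
    have h2 := congrFun h1 i
    exact (mul_eq_zero.mp h2).resolve_left (pow_ne_zero _ (hd i))
  have hSA : SA s (fun i => d i ^ p) (wp - Matrix.scalar ι c) := by
    intro i j
    have h1 : d i ^ p * w i j ^ p = d j ^ p * s (w j i) ^ p := by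
      rw [← mul_pow, ← mul_pow, hw i j]
    simp only [hwp, Matrix.sub_apply, Matrix.map_apply, Matrix.scalar_apply, map_sub,
      frobenius_def, map_pow]
    by_cases hij : i = j
    · subst hij
      rw [Matrix.diagonal_apply_eq, hcs]
      linear_combination h1
    · rw [Matrix.diagonal_apply_ne _ hij, Matrix.diagonal_apply_ne _ (Ne.symm hij), map_zero]
      linear_combination h1
  have h0 := zero_of_nilpotent ha' hSA hN
  have hent : ∀ i j, w i j ^ p = Matrix.scalar ι c i j := by
    intro i j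
    have h1 := congrFun (congrFun h0 i) j
    simp only [hwp, Matrix.sub_apply, Matrix.map_apply, frobenius_def, Matrix.zero_apply] at h1
    exact sub_eq_zero.mp h1
  refine ⟨w i₀ i₀, ?_⟩
  ext1 i j
  rw [Matrix.scalar_apply]
  by_cases hij : i = j
  · subst hij
    rw [Matrix.diagonal_apply_eq]
    have h1 := hent i i
    have h2 := hent i₀ i₀
    rw [Matrix.scalar_apply, Matrix.diagonal_apply_eq] at h1 h2
    exact frobenius_inj E p (by rw [frobenius_def, frobenius_def, h1, h2])
  · rw [Matrix.diagonal_apply_ne _ hij]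
    have h1 := hent i j
    rw [Matrix.scalar_apply, Matrix.diagonal_apply_ne _ hij] at h1
    exact (pow_eq_zero_iff hp.out.ne_zero).mp h1

theorem scal_of_pow_char_pow {s : E →+* E} {d : ι → E} (hfix : ∀ i, s (d i) = d i)
    (ha : Aniso s d) {p : ℕ} [hp : Fact p.Prime] [CharP E p] (hodd : Odd p) (k : ℕ)
    {w : Matrix ι ι E} (hw : SA s d w) (hsc : Scal (w ^ p ^ k)) : Scal w := by
  induction k with
  | zero => simpa using hsc
  | succ k ih =>
    apply ih
    apply scal_of_pow_char hfix ha hodd (hw.pow _)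
    rw [← pow_mul, ← pow_succ]
    exact hsc

end Frob

universe u

/-- Good forms over fields, all odd exponents. -/
theorem exists_good_odd {K : Type u} [Field K] (κ : K →+* K) (hκ : ∀ a, κ (κ a) = a) {ν : ℕ}
    (hodd : Odd ν) (hroot : ∀ ω : K, ω ^ ν = 1 → κ ω = ω → ω = 1) {n : ℕ} (hn : 0 < n) :
    ∃ (E : Type u) (_ : Field E) (i : K →+* E) (s : E →+* E) (d : Fin (n + 1) → E),
      (∀ a, s (s a) = a) ∧ (∀ a, s (i a) = i (κ a)) ∧ (∀ j, s (d j) = d j) ∧ (∀ j, d j ≠ 0) ∧
      Rigid s ν d ∧ (∃ θ, s θ ≠ θ) ∧ {a : E | s a = a}.Infinite := by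
  have hν0 : ν ≠ 0 := hodd.pos.ne'
  by_cases hν : (ν : K) = 0
  · -- the characteristic divides the exponent
    obtain ⟨p, hp⟩ := CharP.exists K
    have hpν : p ∣ ν := (CharP.cast_eq_zero_iff K p ν).mp hν
    have hp0 : p ≠ 0 := by
      rintro rfl
      exact hν0 (Nat.eq_zero_of_zero_dvd hpν)
    have hpp : Fact p.Prime := ⟨(CharP.char_is_prime_or_zero K p).resolve_right hp0⟩
    have hpodd : Odd p := Odd.of_dvd_nat hodd hpν
    obtain ⟨k, ν', hν', rfl⟩ := Nat.exists_eq_pow_mul_and_not_dvd hν0 p hpp.out.ne_one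
    have h1 : (ν' : K) ≠ 0 := fun h => hν' ((CharP.cast_eq_zero_iff K p ν').mp h)
    have h2 : Odd ν' := Odd.of_dvd_nat hodd (Dvd.intro_left _ rfl)
    obtain ⟨E, _, i, s, d, g1, g2, g3, g4, g5, g6, g7⟩ :=
      exists_good_field κ hκ h1 h2 (fun ω hω => hroot ω (by rw [mul_comm, pow_mul, hω, one_pow])) hn
    have hE : CharP E p := charP_of_injective_ringHom i.injective p
    refine ⟨E, inferInstance, i, s, d, g1, g2, g3, g4.ne_zero, ?_, g6, g7⟩
    intro b hb hsc
    apply g5 b hb
    apply scal_of_pow_char_pow g3 g4 hpodd k (hb.pow _)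
    rw [← pow_mul, mul_comm]
    exact hsc
  · obtain ⟨E, _, i, s, d, g1, g2, g3, g4, g5, g6, g7⟩ := exists_good_field κ hκ hν hodd hroot hn
    exact ⟨E, inferInstance, i, s, d, g1, g2, g3, g4.ne_zero, g5, g6, g7⟩

end Pool.Agent.Helper12.Herm
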