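import Mathlib
import Pool.Agent.Helper12.FreeEval
import Pool.Agent.Helper12.Herm.AllExp

/-!
Polynomials spanning a line stable under a monomial involution of the free algebra.
-/

set_option linter.unusedSectionVars false

open Matrix MulOpposite

namespace Pool.Agent.Helper12.Herm

section Adj

variable {E : Type*} [Field E] {ι : Type*} [Fintype ι] [DecidableEq ι]

/-- The adjoint with respect to the diagonal form `d`. -/
def adj (s : E →+* E) (d : ι → E) (M : Matrix ι ι E) : Matrix ι ι E :=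
  Matrix.of fun a b => (d a)⁻¹ * s (M b a) * d b

variable {s : E →+* E} {d : ι → E}

theorem adj_add (M N : Matrix ι ι E) : adj s d (M + N) = adj s d M + adj s d N := by
  ext1 a b
  simp only [adj, Matrix.of_apply, Matrix.add_apply, map_add]
  ring

theorem adj_sub (M N : Matrix ι ι E) : adj s d (M - N) = adj s d M - adj s d N := by
  ext1 a b
  simp only [adj, Matrix.of_apply, Matrix.sub_apply, map_sub]
  ring

theorem adj_smul (r : E) (M : Matrix ι ι E) : adj s d (r • M) = s r • adj s d M := by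
  ext1 a b
  simp only [adj, Matrix.of_apply, Matrix.smul_apply, smul_eq_mul, map_mul]
  ring

theorem adj_mul (hd : ∀ i, d i ≠ 0) (M N : Matrix ι ι E) :
    adj s d (M * N) = adj s d N * adj s d M := by
  ext1 a b
  simp only [adj, Matrix.of_apply, Matrix.mul_apply, map_sum, map_mul]
  rw [Finset.mul_sum, Finset.sum_mul]
  apply Finset.sum_congr rfl
  intro c _
  have := hd c
  field_simp

theorem adj_adj (hs : ∀ a, s (s a) = a) (hfix : ∀ i, s (d i) = d i) (hd : ∀ i, d i ≠ 0)
    (M : Matrix ι ι E) : adj s d (adj s d M) = M := by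
  ext1 a b
  simp only [adj, Matrix.of_apply, map_mul, map_inv₀, hs, hfix]
  have := hd a
  have := hd b
  field_simp

theorem sa_of_adj (hd : ∀ i, d i ≠ 0) {M : Matrix ι ι E} (h : adj s d M = M) : SA s d M := by
  intro i j
  have h1 := congrFun (congrFun h i) j
  simp only [adj, Matrix.of_apply] at h1
  rw [← h1]
  have := hd i
  field_simp

theorem adj_scalar (hd : ∀ i, d i ≠ 0) (r : E) :
    adj s d (Matrix.scalar ι r) = Matrix.scalar ι (s r) := by
  ext1 a b
  simp only [adj, Matrix.of_apply, Matrix.scalar_apply]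
  by_cases hab : a = b
  · subst hab
    rw [Matrix.diagonal_apply_eq, Matrix.diagonal_apply_eq]
    have := hd a
    field_simp
  · rw [Matrix.diagonal_apply_ne _ hab, Matrix.diagonal_apply_ne _ (Ne.symm hab), map_zero,
      mul_zero, zero_mul]

end Adj

section Main

variable {K : Type*} [Field K] {X : Type*} {E : Type*} [Field E] [Algebra K E]
  {ι : Type*} [Fintype ι] [DecidableEq ι]

theorem lift_adj {κ : K →+* K} {s : E →+* E} {d : ι → E} (hd : ∀ i, d i ≠ 0)
    (hsκ : ∀ r : K, s (algebraMap K E r) = algebraMap K E (κ r))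
    {π : X → X} {ε : X → K} {σ : FreeAlgebra K X →+* (FreeAlgebra K X)ᵐᵒᵖ}
    (hσ : ∀ r, σ (algebraMap K _ r) = op (algebraMap K _ (κ r)))
    (hσX : ∀ x, σ (FreeAlgebra.ι K x) = op (ε x • FreeAlgebra.ι K (π x)))
    (a : X → Matrix ι ι E) (ha : ∀ x, adj s d (a x) = algebraMap K E (ε x) • a (π x))
    (p : FreeAlgebra K X) :
    adj s d (FreeAlgebra.lift K a p) = FreeAlgebra.lift K a (unop (σ p)) := by
  induction p using FreeAlgebra.induction with
  | grade0 r =>
    rw [hσ, unop_op, AlgHom.commutes, AlgHom.commutes, Matrix.algebraMap_eq_diagonal,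
      Matrix.algebraMap_eq_diagonal]
    have := adj_scalar (s := s) (d := d) hd (algebraMap K E r)
    rw [hsκ] at this
    exact this
  | grade1 x =>
    rw [hσX, unop_op, map_smul, FreeAlgebra.lift_ι_apply, FreeAlgebra.lift_ι_apply, ha]
    exact algebraMap_smul E (ε x) (a (π x))
  | mul p q hp hq =>
    rw [map_mul, adj_mul hd, hp, hq, map_mul, unop_mul, map_mul]
  | add p q hp hq =>
    rw [map_add, adj_add, hp, hq, map_add, unop_add, map_add]

theorem scal_of_fixed {κ : K →+* K} {s : E →+* E} {d : ι → E} (hs : ∀ a, s (s a) = a)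
    (hfix : ∀ i, s (d i) = d i) (hd : ∀ i, d i ≠ 0)
    (hsκ : ∀ r : K, s (algebraMap K E r) = algebraMap K E (κ r)) {ν : ℕ} (hr : Rigid s ν d)
    (hθ : ∃ θ, s θ ≠ θ)
    {π : X → X} {ε : X → K} {σ : FreeAlgebra K X →+* (FreeAlgebra K X)ᵐᵒᵖ}
    (hσ : ∀ r, σ (algebraMap K _ r) = op (algebraMap K _ (κ r)))
    (hσX : ∀ x, σ (FreeAlgebra.ι K x) = op (ε x • FreeAlgebra.ι K (π x)))
    {p : FreeAlgebra K X} {t : K} (hp : σ p = op (t • p))
    (a : X → Matrix ι ι E) (ha : ∀ x, adj s d (a x) = algebraMap K E (ε x) • a (π x))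
    (hc : Scal ((FreeAlgebra.lift K a p) ^ ν)) :
    Scal (FreeAlgebra.lift K a p) := by
  have h1 := lift_adj hd hsκ hσ hσX a ha p
  rw [hp, unop_op, map_smul] at h1
  set b := FreeAlgebra.lift K a p with hb
  by_cases hb0 : b = 0
  · exact ⟨0, by rw [hb0, map_zero]⟩
  set T : E := algebraMap K E t with hT
  have h1' : adj s d b = T • b := by
    rw [h1]
    exact (algebraMap_smul E t b).symm
  have hTT : s T * T = 1 := by
    have h2 := adj_adj hs hfix hd b
    rw [h1', adj_smul, h1', smul_smul] at h2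
    obtain ⟨i, j, hij⟩ : ∃ i j, b i j ≠ 0 := by
      by_contra h
      push Not at h
      exact hb0 (by ext1 i j; exact h i j)
    have h3 := congrFun (congrFun h2 i) j
    rw [Matrix.smul_apply, smul_eq_mul] at h3
    exact mul_right_cancel₀ hij (by rw [h3, one_mul])
  obtain ⟨μ, hμ0, hμ⟩ : ∃ μ : E, μ ≠ 0 ∧ s μ * T = μ := by
    by_contra hcon
    push Not at hcon
    have h3 : ∀ θ : E, θ + T * s θ = 0 := by
      intro θ
      by_contra h4
      apply hcon _ h4
      rw [map_add, map_mul, hs]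
      linear_combination θ * hTT
    have h4 := h3 1
    rw [map_one, mul_one] at h4
    obtain ⟨θ, hθ⟩ := hθ
    apply hθ
    have h5 := h3 θ
    linear_combination (s θ) * h4 - h5
  have h2 : adj s d (μ • b) = μ • b := by
    rw [adj_smul, h1', smul_smul, hμ]
  obtain ⟨c, hc⟩ := hc
  obtain ⟨e, he⟩ := hr (μ • b) (sa_of_adj hd h2) (by
    refine ⟨μ ^ ν * c, ?_⟩
    rw [smul_pow, hc]
    ext1 i j
    simp only [Matrix.smul_apply, Matrix.scalar_apply, Matrix.diagonal_apply, smul_eq_mul]
    split_ifs <;> simp)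
  refine ⟨μ⁻¹ * e, ?_⟩
  have h3 : b = μ⁻¹ • (μ • b) := by rw [smul_smul, inv_mul_cancel₀ hμ0, one_smul]
  rw [h3, he]
  ext1 i j
  simp only [Matrix.smul_apply, Matrix.scalar_apply, Matrix.diagonal_apply, smul_eq_mul]
  split_ifs <;> simp

end Main

universe u

/-- The involution theorem over arbitrary infinite fields. -/
theorem involution_main {K : Type u} [Field K] [Infinite K] (κ : K →+* K)
    (hκ : ∀ r, κ (κ r) = r) {X : Type*} (π : X → X) (hπ : ∀ x, π (π x) = x) (ε : X → K)
    (hε : ∀ x, ε (π x) * κ (ε x) = 1)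
    (σ : FreeAlgebra K X →+* (FreeAlgebra K X)ᵐᵒᵖ)
    (hσ : ∀ r, σ (algebraMap K _ r) = op (algebraMap K _ (κ r)))
    (hσX : ∀ x, σ (FreeAlgebra.ι K x) = op (ε x • FreeAlgebra.ι K (π x)))
    {n ν : ℕ} (hν : Odd ν) (hroot : ∀ ω : K, ω ^ ν = 1 → κ ω = ω → ω = 1)
    (p : FreeAlgebra K X) (t : K) (hp : σ p = op (t • p))
    (hpow : ∀ a : X → Matrix (Fin n) (Fin n) K,
      ∃ c : K, (FreeAlgebra.lift K a p) ^ ν = Matrix.scalar (Fin n) c)
    (a : X → Matrix (Fin n) (Fin n) K) :
    ∃ c : K, FreeAlgebra.lift K a p = Matrix.scalar (Fin n) c := by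
  rcases n with _ | _ | m
  · exact ⟨0, Subsingleton.elim _ _⟩
  · refine ⟨FreeAlgebra.lift K a p 0 0, ?_⟩
    ext1 i j
    have hi : i = 0 := Fin.fin_one_eq_zero i
    have hj : j = 0 := Fin.fin_one_eq_zero j
    subst hi; subst hj
    simp
  obtain ⟨E, _, i, s, d, hs, hsi, hfix, hd, hr, ⟨θ, hθ⟩, hinf⟩ :=
    exists_good_odd κ hκ hν hroot (n := m + 1) (Nat.succ_pos m)
  let _ : Algebra K E := i.toAlgebra
  have hsκ : ∀ r : K, s (algebraMap K E r) = algebraMap K E (κ r) := hsi
  have hinj : Function.Injective (algebraMap K E) := (algebraMap K E).injective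
  -- transfer to `E`
  have htr : ∀ b : X → Matrix (Fin (m + 1 + 1)) (Fin (m + 1 + 1)) E,
      Scal ((FreeAlgebra.lift K b p) ^ ν) := by
    intro b
    obtain ⟨h1, h2⟩ := scalar_transfer (K := K) (ι := Fin (m + 1 + 1)) (p ^ ν) (by
      intro a
      obtain ⟨c, hc⟩ := hpow a
      exact ⟨c, by rw [map_pow, hc]⟩) b
    refine ⟨(FreeAlgebra.lift K b (p ^ ν)) 0 0, ?_⟩
    rw [← map_pow]
    ext1 i j
    by_cases hij : i = j
    · subst hij
      rw [Matrix.scalar_apply, Matrix.diagonal_apply_eq, h2 i 0]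
    · rw [Matrix.scalar_apply, Matrix.diagonal_apply_ne _ hij, h1 i j hij]
  -- the tuple over `E`
  let b : X → Matrix (Fin (m + 1 + 1)) (Fin (m + 1 + 1)) E := fun x => (a x).map (algebraMap K E)
  let εE : X → E := fun x => algebraMap K E (ε x)
  have hεE : ∀ x, εE (π x) * s (εE x) = 1 := by
    intro x
    simp only [εE]
    rw [hsκ, ← map_mul, hε, map_one]
  have hεs : ∀ x, s (εE (π x)) * εE x = 1 := by
    intro x
    have h1 := congrArg s (hεE x)
    rw [map_mul, hs, map_one] at h1
    exact h1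
  -- the involution on tuples
  let Φ : (X → Matrix (Fin (m + 1 + 1)) (Fin (m + 1 + 1)) E) →
      X → Matrix (Fin (m + 1 + 1)) (Fin (m + 1 + 1)) E :=
    fun b x => s (εE x) • adj s d (b (π x))
  have hδ : θ - s θ ≠ 0 := fun h => hθ (sub_eq_zero.mp h).symm
  let k : X → Matrix (Fin (m + 1 + 1)) (Fin (m + 1 + 1)) E := fun x => (θ - s θ)⁻¹ • (b x - Φ b x)
  let h : X → Matrix (Fin (m + 1 + 1)) (Fin (m + 1 + 1)) E := fun x => b x - θ • k x
  have hΦb : ∀ x, adj s d (Φ b x) = εE x • b (π x) := by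
    intro x
    simp only [Φ]
    rw [adj_smul, hs, adj_adj hs hfix hd]
  have hbΦ : ∀ x, adj s d (b x) = εE x • Φ b (π x) := by
    intro x
    simp only [Φ]
    rw [hπ, smul_smul, mul_comm, hεs, one_smul]
  have hk : ∀ x, adj s d (k x) = εE x • k (π x) := by
    intro x
    simp only [k]
    rw [adj_smul, adj_sub, hΦb, hbΦ, ← smul_sub, smul_smul, smul_smul, map_inv₀, map_sub, hs]
    have h1 : (s θ - θ)⁻¹ = -(θ - s θ)⁻¹ := by
      rw [← neg_sub, inv_neg]
    rw [h1]
    ext1 i j
    simp only [Matrix.smul_apply, Matrix.sub_apply, smul_eq_mul]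
    ring
  have hh : ∀ x, adj s d (h x) = εE x • h (π x) := by
    intro x
    simp only [h]
    rw [adj_sub, adj_smul, hk, hbΦ]
    simp only [k]
    ext1 i j
    simp only [Matrix.smul_apply, Matrix.sub_apply, smul_eq_mul]
    have h1 : (θ - s θ)⁻¹ * (θ - s θ) = 1 := inv_mul_cancel₀ hδ
    linear_combination (εE x * (b (π x) i j - Φ b (π x) i j)) * h1
  have hline : ∀ l : E, s l = l → Scal (FreeAlgebra.lift K (fun x => h x + l • k x) p) := by
    intro l hl
    apply scal_of_fixed hs hfix hd hsκ hr ⟨θ, hθ⟩ hσ hσX hp _ _ (htr _)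
    intro x
    rw [adj_add, adj_smul, hh, hk, hl]
    ext1 i j
    simp only [Matrix.smul_apply, Matrix.add_apply, smul_eq_mul, εE]
    ring
  -- polynomial in the parameter
  let B : X → Matrix (Fin (m + 1 + 1)) (Fin (m + 1 + 1)) (Polynomial E) := fun x =>
    (h x).map Polynomial.C + (Polynomial.X : Polynomial E) • (k x).map Polynomial.C
  have hB : ∀ z : E, (FreeAlgebra.lift K B p).map (Polynomial.eval z)
      = FreeAlgebra.lift K (fun x => h x + z • k x) p := by
    intro z
    have h1 := lift_map (((Polynomial.aeval (R := E) z)).restrictScalars K) B p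
    have h2 : (fun x => (B x).map (((Polynomial.aeval (R := E) z)).restrictScalars K))
        = fun x => h x + z • k x := by
      funext x
      ext1 i j
      simp [B]
      ring
    rw [h2] at h1
    rw [← h1]
    ext1 i j
    simp
  have hvan : ∀ f : Polynomial E, (∀ l : E, s l = l → f.eval l = 0) → f = 0 := by
    intro f hf
    apply Polynomial.eq_zero_of_infinite_isRoot
    exact hinf.mono fun l hl => hf l hl
  have hoff : ∀ i j, i ≠ j → FreeAlgebra.lift K B p i j = 0 := by
    intro i j hij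
    apply hvan
    intro l hl
    obtain ⟨c, hc⟩ := hline l hl
    have := congrFun (congrFun (hB l) i) j
    rw [hc, Matrix.map_apply, Matrix.scalar_apply, Matrix.diagonal_apply_ne _ hij] at this
    exact this
  have hdia : ∀ i j, FreeAlgebra.lift K B p i i - FreeAlgebra.lift K B p j j = 0 := by
    intro i j
    apply hvan
    intro l hl
    obtain ⟨c, hc⟩ := hline l hl
    have h1 := congrFun (congrFun (hB l) i) i
    have h2 := congrFun (congrFun (hB l) j) j
    rw [hc, Matrix.map_apply, Matrix.scalar_apply, Matrix.diagonal_apply_eq] at h1 h2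
    rw [Polynomial.eval_sub, h1, h2, sub_self]
  have hI : (fun x => h x + θ • k x) = b := by
    funext x
    simp only [h]
    abel
  have hval := hB θ
  rw [hI] at hval
  have hba : (FreeAlgebra.lift K a p).map (algebraMap K E) = FreeAlgebra.lift K b p :=
    lift_map (Algebra.ofId K E) a p
  rw [← hba] at hval
  refine ⟨FreeAlgebra.lift K a p 0 0, ?_⟩
  ext1 i j
  by_cases hij : i = j
  · subst hij
    rw [Matrix.scalar_apply, Matrix.diagonal_apply_eq]
    apply hinj
    have h1 := congrFun (congrFun hval i) i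
    have h2 := congrFun (congrFun hval 0) 0
    rw [Matrix.map_apply, Matrix.map_apply] at h1 h2
    rw [← h1, ← h2, sub_eq_zero.mp (hdia i 0)]
  · rw [Matrix.scalar_apply, Matrix.diagonal_apply_ne _ hij]
    apply hinj
    have h1 := congrFun (congrFun hval i) j
    rw [Matrix.map_apply, Matrix.map_apply, hoff i j hij, Polynomial.eval_zero] at h1
    rw [← h1, map_zero]

end Pool.Agent.Helper12.Herm
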